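import Mathlib
import Pool.Agent.H7.CubeEmb

set_option autoImplicit false

namespace Pool.Agent.Results.MP_c810be_co.ExpBound

/-- `f : {0,1}^k → {0,1}^N` is undistorted: a rescaled isometry for the Hamming metric. -/
def Undistorted {k N : ℕ} (f : (Fin k → Bool) → (Fin N → Bool)) : Prop :=
  ∃ r : ℝ, 0 < r ∧ ∀ x y, (hammingDist (f x) (f y) : ℝ) = r * (hammingDist x y : ℝ)

/-- Every `D ⊆ {0,1}^N` with `|D| ≥ δ 2^N` contains the image of an undistorted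
`f : {0,1}^k → {0,1}^N`. -/
def HasEmb (δ : ℝ) (k N : ℕ) : Prop :=
  ∀ D : Finset (Fin N → Bool), δ * 2 ^ N ≤ (D.card : ℝ) →
    ∃ f : (Fin k → Bool) → (Fin N → Bool), Undistorted f ∧ ∀ x, f x ∈ D

/-- `Emb(1,δ,k)`, the least `N` with `HasEmb δ k N`, exists and is at most
`e^{Ck} log(1/δ)`. -/
theorem result : ∃ C : ℝ, 0 < C ∧ ∀ (k : ℕ) (δ : ℝ), 0 < δ → δ ≤ 1 / 2 →
    ∃ N : ℕ, IsLeast {M : ℕ | HasEmb δ k M} N ∧
      (N : ℝ) ≤ Real.exp (C * k) * Real.log (1 / δ) := by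
  refine ⟨11, by norm_num, fun k δ h0 h1 => ?_⟩
  have key : ∃ N : ℕ, HasEmb δ k N ∧ (N : ℝ) ≤ Real.exp (11 * k) * Real.log (1 / δ) := by
    rcases Nat.eq_zero_or_pos k with rfl | hk
    · refine ⟨0, fun D hD => ?_, ?_⟩
      · have : 0 < D.card := by
          have : (0 : ℝ) < D.card := lt_of_lt_of_le (by positivity) hD
          exact_mod_cast this
        obtain ⟨d, hd⟩ := Finset.card_pos.1 this
        exact ⟨fun _ => d, ⟨1, one_pos, fun x y => by simp [Subsingleton.elim x y]⟩, fun _ => hd⟩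
      · have : (1 : ℝ) ≤ 1 / δ := by rw [le_div_iff₀ h0]; linarith
        have := Real.log_nonneg this
        simpa using this
    · obtain ⟨N, r, _, hr, hN, h⟩ := Pool.Agent.H7.CubeEmb.main k hk δ h0 h1
      refine ⟨N, fun D hD => ?_, hN⟩
      obtain ⟨f, hf1, hf2⟩ := h D hD
      exact ⟨f, ⟨r, by exact_mod_cast hr, fun x y => by rw [hf2]; push_cast; rfl⟩, hf1⟩
  obtain ⟨N, hN1, hN2⟩ := key
  classical
  have hex : ∃ M : ℕ, HasEmb δ k M := ⟨N, hN1⟩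
  refine ⟨Nat.find hex, ⟨Nat.find_spec hex, fun M hM => Nat.find_min' hex hM⟩, le_trans ?_ hN2⟩
  exact_mod_cast Nat.find_min' hex hN1

end Pool.Agent.Results.MP_c810be_co.ExpBound
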